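import Pool.Agent.Results.MP_83e36b_nt.ShiftsInWindows
import Pool.Agent.V11260.PC

/-!
# Weak approximation for ALL fibrations given by several shifted polynomials with shifts in random residue classes

`V_k : y_i² - a_i z_i² = c_i ∏_{j ∈ E_i} (f_j(t) + k_j)` as in `SeveralShifts`, `Given`, `Orthogonal`, `Approximated` as in
`ShiftsInWindows`. From `Pool.Agent.V11312.PD`: the `g_i + 2 ≥ 2` are arbitrary bases, `modulus g l` is the product `m_l` of the
first `l` bases (for example `q ^ l`, or `(l + 1)!`), `law g` is the law of a sequence `ω` of independent uniform digits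
`0 ≤ ω_i < g_i + 2`, and `value g ω l = ∑_{i < l} ω_i m_i` is the residue class modulo `m_l` of the random `q`-adic (or profinite)
integer with the digits `ω`.
-/

set_option autoImplicit false

namespace Pool.Agent.Results.MP_83e36b_nt.ShiftsInResidueClasses

open Finset Polynomial Filter Topology MeasureTheory
open Pool.Agent.Results.MP_83e36b_nt.SeveralShifts (OnV Given Approximated)
open Pool.Agent.Results.MP_83e36b_nt.ShiftsInWindows (Fast Orthogonal par_of)
open Pool.Agent.Y714.RC (PP sf sf_deg sf_lead thmC)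
open Pool.Agent.V11260.RS (WAP GoodP Par was_of wap_mono)
open Pool.Agent.V11312.PD (law modulus value modulus_const modulus_id)

/-- **All shifts in random residue classes.** Let `f_1, …, f_s` be nonconstant integral polynomials, `a_i`, `c_i` nonzero
integers, `E_i` subsets of `{1, …, s}`, `Y_n` natural numbers growing at least like `exp (n ^ δ)`, and let `m_l` be the product of
the first `l` of arbitrary bases. Let `A` be given and let the levels `L_(n,j)` be such that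
`m_(L_(n,j)) (log Y_n) ^ A ≥ Y_n ^ deg f_j` for large `n`. For almost all `ω = (ω_1, …, ω_s)` (independent sequences of independent uniform
digits): let `T` be a finite set of primes containing `2`, the primes up to `∑ deg f_j` and those dividing a leading coefficient
of the `f_j` or some `a_i c_i`, and let `N`, `B` be given. For all large `n` and ALL `k` with `|k_j| ≤ B Y_n ^ deg f_j` and
`k_j ≡ n_j (mod m_(L_(n,j)))` for all `j`, where `n_j` is the class with the digits `ω_j`: all families of points of `V_k` over the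
`ℚ_p`, `p` in `T`, and over `ℝ` (not too large and not too close to the degenerate fibres, `Given`) at which the invariants of all
the algebras `(a_i, f_j(t) + k_j)`, `j` in `E_i`, add up to zero can be approximated by rational points of `V_k`
(`Approximated`). Examples: `m_l = q ^ l` and `m_l = (l + 1)!`. -/
theorem result :
    (∀ (r s : ℕ) (f : Fin s → ℤ[X]) (_ : ∀ j, 1 ≤ (f j).natDegree) (a c : Fin r → ℤ) (_ : ∀ i, a i ≠ 0) (_ : ∀ i, c i ≠ 0)
      (E : Fin r → Finset (Fin s)) (Y : ℕ → ℕ) (_ : Fast Y) (g : ℕ → ℕ) (A : ℕ) (L : ℕ → Fin s → ℕ)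
      (_ : ∀ᶠ n : ℕ in atTop, ∀ j, (Y n : ℝ) ^ (f j).natDegree ≤ (modulus g (L n j) : ℝ) * Real.log (Y n) ^ A),
      ∀ᵐ ω ∂(Measure.pi fun _ : Fin s => law g), ∀ T : Finset Nat.Primes,
        (∀ p : Nat.Primes, ((p : ℕ) = 2 ∨ (p : ℕ) ≤ ∑ j, (f j).natDegree ∨ (∃ j, ((p : ℕ) : ℤ) ∣ (f j).leadingCoeff) ∨
          ∃ i, ((p : ℕ) : ℤ) ∣ a i * c i) → p ∈ T) →
        ∀ N B : ℕ, ∃ n₀ : ℕ, ∀ n : ℕ, n₀ ≤ n → ∀ k : Fin s → ℤ,
          (∀ j, |k j| ≤ ((B * Y n ^ (f j).natDegree : ℕ) : ℤ)) →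
          (∀ j, (value g (ω j) (L n j) : ℤ) ≡ k j [ZMOD (modulus g (L n j) : ℤ)]) →
          ∀ (t : (p : Nat.Primes) → ℚ_[(p : ℕ)]) (y z : (p : Nat.Primes) → Fin r → ℚ_[(p : ℕ)]) (tr : ℝ) (yr zr : Fin r → ℝ),
            Given f a c E T N B (Y n) k t y z tr yr zr → Orthogonal f a E T k t tr →
              Approximated f a c E T N B (Y n) k t y z tr yr zr) ∧
    (∀ q : ℕ, 2 ≤ q → ∀ l, modulus (fun _ => q - 2) l = q ^ l) ∧
    (∀ l : ℕ, modulus (fun i => i) l = (l + 1).factorial) := by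
  classical
  refine ⟨fun r s f hf a c ha hc E Y hY g A L hL => ?_, modulus_const, modulus_id⟩
  have hY' : Pool.Agent.V11260.BW.Fast Y := hY
  have hmain : ∀ᵐ ω ∂(Measure.pi fun _ : Fin s => law g), ∀ (T : Finset Nat.Primes) (N R : ℕ),
      (∀ p : Nat.Primes, ((p : ℕ) = 2 ∨ (p : ℕ) ≤ ∑ j, (f j).natDegree ∨ (∃ j, ((p : ℕ) : ℤ) ∣ (f j).leadingCoeff) ∨
          ∃ i, ((p : ℕ) : ℤ) ∣ a i * c i) → p ∈ T) → 1 ≤ R →
      ∃ n₀ : ℕ, ∀ n : ℕ, n₀ ≤ n → ∀ k : Fin s → ℤ,
          (∀ j, |k j| ≤ ((R * Y n ^ (f j).natDegree : ℕ) : ℤ)) →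
          (∀ j, (value g (ω j) (L n j) : ℤ) ≡ k j [ZMOD (modulus g (L n j) : ℤ)]) → WAP f a c E T N R (Y n) k := by
    rw [ae_all_iff]
    intro T
    rw [ae_all_iff]
    intro N
    rw [ae_all_iff]
    intro R
    by_cases hTR : (∀ p : Nat.Primes, ((p : ℕ) = 2 ∨ (p : ℕ) ≤ ∑ j, (f j).natDegree ∨
        (∃ j, ((p : ℕ) : ℤ) ∣ (f j).leadingCoeff) ∨ ∃ i, ((p : ℕ) : ℤ) ∣ a i * c i) → p ∈ T) ∧ 1 ≤ R
    swap
    · exact Eventually.of_forall fun ω h1 h2 => absurd ⟨h1, h2⟩ hTR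
    obtain ⟨hT, hR⟩ := hTR
    obtain ⟨N', B', hRB, hwas⟩ := was_of f hf a c ha hc E T N R hR
    have hD : ∀ σ : ℤ, (σ = 1 ∨ σ = -1) → ∀ U : ℕ, ∃ Y0 : ℕ, ∀ Z : ℕ, Y0 ≤ Z → ∃ Bad : Finset (Fin s → ℤ),
        (#Bad : ℝ) ≤ (∏ j, (Z : ℝ) ^ (f j).natDegree) / Real.log Z ^ U ∧
        ∀ k : Fin s → ℤ, (∀ j, |k j| ≤ ((B' * Z ^ (f j).natDegree : ℕ) : ℤ)) → k ∉ Bad →
          GoodP (sf σ f) a c E T N' B' Z k := by
      intro σ hσ U
      have hσ0 : σ ≠ 0 := by rcases hσ with h | h <;> rw [h] <;> norm_num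
      have hσu : IsUnit σ := by rcases hσ with h | h <;> rw [h] <;> decide
      obtain ⟨Y0, h0⟩ := thmC (sf σ f) (fun j => by rw [sf_deg σ hσ0]; exact hf j) a c ha hc E T
        (fun p hp => hT p (Or.inl hp)) (by
          rintro p ⟨i, h | h⟩
          · exact hT p (Or.inr (Or.inr (Or.inr ⟨i, h.mul_right _⟩)))
          · exact hT p (Or.inr (Or.inr (Or.inr ⟨i, h.mul_left _⟩)))) (by
          intro p hp
          rw [sum_congr rfl (fun j _ => sf_deg σ hσ0 f j)] at hp
          exact hT p (Or.inr (Or.inl hp))) (by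
          rintro p ⟨j, h⟩
          rw [sf_lead σ hσ0] at h
          have h1 : ((p : ℕ) : ℤ) ∣ (f j).leadingCoeff := by
            rcases (Nat.prime_iff_prime_int.1 p.2).dvd_or_dvd h with h | h
            · exact h
            · exact absurd ((Nat.prime_iff_prime_int.1 p.2).dvd_of_dvd_pow h)
                (fun h2 => (Nat.prime_iff_prime_int.1 p.2).not_isUnit (isUnit_of_dvd_unit h2 hσu))
          exact hT p (Or.inr (Or.inr (Or.inl ⟨j, h1⟩)))) N' B' U (hR.trans hRB)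
      refine ⟨Y0, fun Z hZ => ?_⟩
      obtain ⟨Bad, g1, g2⟩ := h0 Z hZ
      refine ⟨Bad, ?_, fun k hk hkB => ?_⟩
      · rw [prod_congr rfl (fun j _ => by rw [sf_deg σ hσ0 f j])] at g1
        exact g1
      · exact g2 k (fun j => by rw [sf_deg σ hσ0 f j]; exact hk j) hkB
    choose Y1 h1 using hD 1 (Or.inl rfl)
    choose Y2 h2 using hD (-1) (Or.inr rfl)
    choose! Bad1 p1 q1 using h1
    choose! Bad2 p2 q2 using h2
    obtain ⟨U, hU⟩ := Pool.Agent.V11260.PC.ae_cls g (fun j => (f j).natDegree) hY' A L hL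
      (fun U n => Bad1 U (Y n) ∪ Bad2 U (Y n)) (by
        intro U
        obtain ⟨n₀, hn₀⟩ := Filter.eventually_atTop.1 (hY'.tendsto.eventually_ge_atTop (max (Y1 U) (Y2 U)))
        refine ⟨2, n₀, fun n hn => ?_⟩
        have g1 := p1 U (Y n) ((le_max_left _ _).trans (hn₀ n hn))
        have g2 := p2 U (Y n) ((le_max_right _ _).trans (hn₀ n hn))
        have g3 : (#(Bad1 U (Y n) ∪ Bad2 U (Y n)) : ℝ) ≤ #(Bad1 U (Y n)) + #(Bad2 U (Y n)) := by
          exact_mod_cast card_union_le _ _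
        linarith)
    filter_upwards [hU] with ω hω _ _
    obtain ⟨n₁, hn₁⟩ := hω
    obtain ⟨n₂, hn₂⟩ := Filter.eventually_atTop.1 (hY'.tendsto.eventually_ge_atTop (max (max (Y1 U) (Y2 U)) 1))
    refine ⟨max n₁ n₂, fun n hn k hkR hk => ?_⟩
    have g2 := hn₂ n ((le_max_right _ _).trans hn)
    have g3 := hn₁ n ((le_max_left _ _).trans hn) k
    have hkB : k ∉ Bad1 U (Y n) ∪ Bad2 U (Y n) := fun hkB => g3 hkB hk
    rw [mem_union, not_or] at hkB
    have hkle : ∀ j, |k j| ≤ ((B' * Y n ^ (f j).natDegree : ℕ) : ℤ) := by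
      intro j
      refine (hkR j).trans ?_
      exact_mod_cast Nat.mul_le_mul_right _ hRB
    have hmm := (le_max_left (max (Y1 U) (Y2 U)) 1).trans g2
    exact hwas (Y n) ((le_max_right _ _).trans g2) k
      (q1 U (Y n) ((le_max_left _ _).trans hmm) k hkle hkB.1)
      (q2 U (Y n) ((le_max_right _ _).trans hmm) k hkle hkB.2)
  filter_upwards [hmain] with ω hω T hT N B
  obtain ⟨n₀, hn₀⟩ := hω T N (B + 1) hT (by omega)
  refine ⟨n₀, fun n hn k hkB hk t y z tr yr zr hG hO => ?_⟩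
  have h1 := wap_mono f a c E T N B _ (Y n) (by omega) k (hn₀ n hn k (fun j => (hkB j).trans (by
    exact_mod_cast Nat.mul_le_mul_right _ (Nat.le_succ B))) hk)
  exact h1 t y z tr yr zr hG.1 hG.2.1 hG.2.2.1 hG.2.2.2.1 hG.2.2.2.2
    (par_of f a ha E T k t tr (fun p hp j => (hG.1 p hp).1.1 j) hO)

end Pool.Agent.Results.MP_83e36b_nt.ShiftsInResidueClasses
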