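import Pool.Agent.Results.MP_83e36b_nt.SeveralShifts
import Pool.Agent.V11260.RS
import Pool.Agent.V11260.BW

/-!
# Weak approximation for ALL fibrations given by several shifted polynomials with shifts in windows

`V_k : y_i² - a_i z_i² = c_i ∏_{j ∈ E_i} (f_j(t) + k_j)` as in `SeveralShifts`. Let `Y_n` be natural numbers growing at least like
`exp (n ^ δ)`, for example `b ^ n`. For almost all `α` in `ℝ^s`, for all large `n` and ALL `k` with
`|k_j - α_j Y_n ^ deg f_j| ≤ (log Y_n) ^ A` the families of points of `V_k` over the `ℚ_p`, `p` in `T`, and over `ℝ`, at which the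
invariants of every algebra `(a_i, f_j(t) + k_j)`, `j ∈ E_i`, add up to zero, can be approximated by rational points.
-/

set_option autoImplicit false

namespace Pool.Agent.Results.MP_83e36b_nt.ShiftsInWindows

open Finset Polynomial Filter Topology MeasureTheory
open Pool.Agent.Results.MP_83e36b_nt.SeveralShifts (OnV Given Approximated)
open Pool.Agent.Y714.RC (PP sf sf_deg sf_lead thmC)
open Pool.Agent.V11260.RS (WAP GoodP Par was_of wap_mono)

/-- `Y n` grows at least like `exp (n ^ δ)` for some `δ > 0` -/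
def Fast (Y : ℕ → ℕ) : Prop := ∃ δ : ℝ, 0 < δ ∧ ∀ᶠ n : ℕ in atTop, (n : ℝ) ^ δ ≤ Real.log (Y n)

/-- `x` is a norm from `F(√a)`, that is, for `a`, `x` different from `0`, the quaternion algebra `(a, x)` splits over `F` -/
def IsNorm (a : ℤ) {F : Type} [Field F] (x : F) : Prop := ∃ u v : F, u ^ 2 - (a : F) * v ^ 2 = x

open Classical in
/-- for all `i` and all `j` in `E_i` the invariants of the algebra `(a_i, f_j(t) + k_j)` at the points `t p`, `p` in `T`, and at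
the real point `tr` add up to zero: the number of the places at which it does not split is even -/
def Orthogonal {r s : ℕ} (f : Fin s → ℤ[X]) (a : Fin r → ℤ) (E : Fin r → Finset (Fin s)) (T : Finset Nat.Primes)
    (k : Fin s → ℤ) (t : (p : Nat.Primes) → ℚ_[(p : ℕ)]) (tr : ℝ) : Prop :=
  ∀ i, ∀ j ∈ E i, Even (#(T.filter (fun p : Nat.Primes => ¬ IsNorm (a i) (aeval (t p) (f j) + (k j : ℚ_[(p : ℕ)])))) +
    (if IsNorm (a i) (aeval tr (f j) + (k j : ℝ)) then 0 else 1))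

lemma isNorm_real {a : ℤ} (ha : a ≠ 0) {x : ℝ} : IsNorm a x ↔ ¬ (a < 0 ∧ x < 0) := by
  constructor
  · rintro ⟨u, v, h⟩ ⟨h1, h2⟩
    have h3 : (a : ℝ) < 0 := by exact_mod_cast h1
    nlinarith [sq_nonneg u, sq_nonneg v, mul_nonneg (neg_nonneg.2 h3.le) (sq_nonneg v)]
  · intro h
    rcases lt_or_gt_of_ne ha with h1 | h1
    · have h2 : 0 ≤ x := by
        by_contra h3
        exact h ⟨h1, not_le.1 h3⟩
      exact ⟨Real.sqrt x, 0, by rw [Real.sq_sqrt h2]; ring⟩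
    · have h3 : (0 : ℝ) < a := by exact_mod_cast h1
      rcases le_total 0 x with h2 | h2
      · exact ⟨Real.sqrt x, 0, by rw [Real.sq_sqrt h2]; ring⟩
      · refine ⟨0, Real.sqrt (-x / a), ?_⟩
        rw [Real.sq_sqrt (div_nonneg (neg_nonneg.2 h2) h3.le)]
        field_simp
        ring

lemma par_of {r s : ℕ} (f : Fin s → ℤ[X]) (a : Fin r → ℤ) (ha : ∀ i, a i ≠ 0) (E : Fin r → Finset (Fin s))
    (T : Finset Nat.Primes) (k : Fin s → ℤ) (t : (p : Nat.Primes) → ℚ_[(p : ℕ)]) (tr : ℝ)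
    (h1 : ∀ p ∈ T, ∀ j, aeval (t p) (f j) + (k j : ℚ_[(p : ℕ)]) ≠ 0)
    (h : Orthogonal f a E T k t tr) : Par f a E T k t tr := by
  classical
  intro i j hj
  have h3 := h i j hj
  have e1 : (T.filter (fun p : Nat.Primes => ¬ Pool.Agent.W313.BMX.Splits (a i : ℚ_[(p : ℕ)]) (PP f k j (t p)))) =
      T.filter (fun p : Nat.Primes => ¬ IsNorm (a i) (aeval (t p) (f j) + (k j : ℚ_[(p : ℕ)]))) := by
    apply filter_congr
    intro p hp
    apply not_congr
    exact (Pool.Agent.TH204.HP.conic_iff _ _ (by exact_mod_cast ha i) (h1 p hp j)).symm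
  have e2 : (if a i < 0 ∧ PP f k j tr < 0 then 1 else 0) =
      (if IsNorm (a i) (aeval tr (f j) + (k j : ℝ)) then 0 else 1) := by
    have h4 := isNorm_real (ha i) (x := aeval tr (f j) + (k j : ℝ))
    by_cases h5 : a i < 0 ∧ PP f k j tr < 0
    · rw [if_pos h5, if_neg (fun h6 => (h4.1 h6) h5)]
    · rw [if_neg h5, if_pos (h4.2 h5)]
  convert h3 using 2
  exact congrArg card (by convert e1)

/-- **All shifts in windows.** Let `f_1, …, f_s` be nonconstant integral polynomials, `a_i`, `c_i` nonzero integers,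
`E_i` subsets of `{1, …, s}` and `Y_n` natural numbers growing at least like `exp (n ^ δ)`. For almost all `α` in `ℝ^s`: let `T` be
a finite set of primes containing `2`, the primes up to `∑ deg f_j` and those dividing a leading coefficient of the `f_j` or some
`a_i c_i`, and let `N`, `B`, `A` be given. For all large `n` and ALL `k` with `|k_j - α_j Y_n ^ deg f_j| ≤ (log Y_n) ^ A`: all
families of points of `V_k` over the `ℚ_p`, `p` in `T`, and over `ℝ` (not too large and not too close to the degenerate fibres,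
`Given`) at which the invariants of all the algebras `(a_i, f_j(t) + k_j)`, `j` in `E_i`, add up to zero can be approximated by
rational points of `V_k` (`Approximated`). -/
theorem result :
    (∀ (r s : ℕ) (f : Fin s → ℤ[X]) (_ : ∀ j, 1 ≤ (f j).natDegree) (a c : Fin r → ℤ) (_ : ∀ i, a i ≠ 0) (_ : ∀ i, c i ≠ 0)
      (E : Fin r → Finset (Fin s)) (Y : ℕ → ℕ) (_ : Fast Y),
      ∀ᵐ α : Fin s → ℝ, ∀ T : Finset Nat.Primes,
        (∀ p : Nat.Primes, ((p : ℕ) = 2 ∨ (p : ℕ) ≤ ∑ j, (f j).natDegree ∨ (∃ j, ((p : ℕ) : ℤ) ∣ (f j).leadingCoeff) ∨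
          ∃ i, ((p : ℕ) : ℤ) ∣ a i * c i) → p ∈ T) →
        ∀ N B A : ℕ, ∃ n₀ : ℕ, ∀ n : ℕ, n₀ ≤ n → ∀ k : Fin s → ℤ,
          (∀ j, |(k j : ℝ) - α j * (Y n : ℝ) ^ (f j).natDegree| ≤ Real.log (Y n) ^ A) →
          ∀ (t : (p : Nat.Primes) → ℚ_[(p : ℕ)]) (y z : (p : Nat.Primes) → Fin r → ℚ_[(p : ℕ)]) (tr : ℝ) (yr zr : Fin r → ℝ),
            Given f a c E T N B (Y n) k t y z tr yr zr → Orthogonal f a E T k t tr →
              Approximated f a c E T N B (Y n) k t y z tr yr zr) ∧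
    ∀ b : ℕ, 2 ≤ b → Fast (fun n => b ^ n) := by
  classical
  refine ⟨fun r s f hf a c ha hc E Y hY => ?_, fun b hb => Pool.Agent.V11260.BW.fast_pow b hb⟩
  have hY' : Pool.Agent.V11260.BW.Fast Y := hY
  have hmain : ∀ᵐ α : Fin s → ℝ, ∀ (T : Finset Nat.Primes) (N R A : ℕ),
      (∀ p : Nat.Primes, ((p : ℕ) = 2 ∨ (p : ℕ) ≤ ∑ j, (f j).natDegree ∨ (∃ j, ((p : ℕ) : ℤ) ∣ (f j).leadingCoeff) ∨
          ∃ i, ((p : ℕ) : ℤ) ∣ a i * c i) → p ∈ T) → 1 ≤ R → (∀ j, |α j| + 1 ≤ R) →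
      ∃ n₀ : ℕ, ∀ n : ℕ, n₀ ≤ n → ∀ k : Fin s → ℤ,
          (∀ j, |(k j : ℝ) - α j * (Y n : ℝ) ^ (f j).natDegree| ≤ Real.log (Y n) ^ A) → WAP f a c E T N R (Y n) k := by
    rw [ae_all_iff]
    intro T
    rw [ae_all_iff]
    intro N
    rw [ae_all_iff]
    intro R
    rw [ae_all_iff]
    intro A
    by_cases hTR : (∀ p : Nat.Primes, ((p : ℕ) = 2 ∨ (p : ℕ) ≤ ∑ j, (f j).natDegree ∨
        (∃ j, ((p : ℕ) : ℤ) ∣ (f j).leadingCoeff) ∨ ∃ i, ((p : ℕ) : ℤ) ∣ a i * c i) → p ∈ T) ∧ 1 ≤ R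
    swap
    · exact Eventually.of_forall fun α h1 h2 => absurd ⟨h1, h2⟩ hTR
    obtain ⟨hT, hR⟩ := hTR
    obtain ⟨N', B', hRB, hwas⟩ := was_of f hf a c ha hc E T N R hR
    have hD : ∀ σ : ℤ, (σ = 1 ∨ σ = -1) → ∀ U : ℕ, ∃ Y0 : ℕ, ∀ Z : ℕ, Y0 ≤ Z → ∃ Bad : Finset (Fin s → ℤ),
        (#Bad : ℝ) ≤ (∏ j, (Z : ℝ) ^ (f j).natDegree) / Real.log Z ^ U ∧
        ∀ k : Fin s → ℤ, (∀ j, |k j| ≤ ((B' * Z ^ (f j).natDegree : ℕ) : ℤ)) → k ∉ Bad →
          GoodP (sf σ f) a c E T N' B' Z k := by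
      intro σ hσ U
      have hσ0 : σ ≠ 0 := by rcases hσ with h | h <;> rw [h] <;> norm_num
      have hσu : IsUnit σ := by rcases hσ with h | h <;> rw [h] <;> decide
      obtain ⟨Y0, h0⟩ := thmC (sf σ f) (fun j => by rw [sf_deg σ hσ0]; exact hf j) a c ha hc E T
        (fun p hp => hT p (Or.inl hp)) (by
          rintro p ⟨i, h | h⟩
          · exact hT p (Or.inr (Or.inr (Or.inr ⟨i, h.mul_right _⟩)))
          · exact hT p (Or.inr (Or.inr (Or.inr ⟨i, h.mul_left _⟩)))) (by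
          intro p hp
          rw [sum_congr rfl (fun j _ => sf_deg σ hσ0 f j)] at hp
          exact hT p (Or.inr (Or.inl hp))) (by
          rintro p ⟨j, h⟩
          rw [sf_lead σ hσ0] at h
          have h1 : ((p : ℕ) : ℤ) ∣ (f j).leadingCoeff := by
            rcases (Nat.prime_iff_prime_int.1 p.2).dvd_or_dvd h with h | h
            · exact h
            · exact absurd ((Nat.prime_iff_prime_int.1 p.2).dvd_of_dvd_pow h)
                (fun h2 => (Nat.prime_iff_prime_int.1 p.2).not_isUnit (isUnit_of_dvd_unit h2 hσu))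
          exact hT p (Or.inr (Or.inr (Or.inl ⟨j, h1⟩)))) N' B' U (hR.trans hRB)
      refine ⟨Y0, fun Z hZ => ?_⟩
      obtain ⟨Bad, g1, g2⟩ := h0 Z hZ
      refine ⟨Bad, ?_, fun k hk hkB => ?_⟩
      · rw [prod_congr rfl (fun j _ => by rw [sf_deg σ hσ0 f j])] at g1
        exact g1
      · exact g2 k (fun j => by rw [sf_deg σ hσ0 f j]; exact hk j) hkB
    choose Y1 h1 using hD 1 (Or.inl rfl)
    choose Y2 h2 using hD (-1) (Or.inr rfl)
    choose! Bad1 p1 q1 using h1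
    choose! Bad2 p2 q2 using h2
    obtain ⟨U, hU⟩ := Pool.Agent.V11260.BW.ae_boxes (fun j => (f j).natDegree) hY' A
      (fun U n => Bad1 U (Y n) ∪ Bad2 U (Y n)) (by
        intro U
        obtain ⟨n₀, hn₀⟩ := Filter.eventually_atTop.1 (hY'.tendsto.eventually_ge_atTop (max (Y1 U) (Y2 U)))
        refine ⟨2, n₀, fun n hn => ?_⟩
        have g1 := p1 U (Y n) ((le_max_left _ _).trans (hn₀ n hn))
        have g2 := p2 U (Y n) ((le_max_right _ _).trans (hn₀ n hn))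
        have g3 : (#(Bad1 U (Y n) ∪ Bad2 U (Y n)) : ℝ) ≤ #(Bad1 U (Y n)) + #(Bad2 U (Y n)) := by
          exact_mod_cast card_union_le _ _
        linarith)
    filter_upwards [hU] with α hα _ _ hαR
    obtain ⟨n₁, hn₁⟩ := hα
    have hlog : ∀ᶠ n : ℕ in atTop, Real.log (Y n) ^ A ≤ (Y n : ℝ) := by
      have h3 := (Real.isLittleO_pow_log_id_atTop (n := A)).bound one_pos
      have h4 : Tendsto (fun n => ((Y n : ℕ) : ℝ)) atTop atTop := tendsto_natCast_atTop_atTop.comp hY'.tendsto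
      filter_upwards [h4.eventually h3] with n hn
      calc Real.log (Y n) ^ A ≤ ‖Real.log (Y n) ^ A‖ := le_abs_self _
        _ ≤ 1 * ‖id (((Y n : ℕ)) : ℝ)‖ := hn
        _ = Y n := by rw [one_mul, id, Real.norm_eq_abs, abs_of_nonneg (Nat.cast_nonneg _)]
    obtain ⟨n₂, hn₂⟩ := Filter.eventually_atTop.1 (hlog.and
      (hY'.tendsto.eventually_ge_atTop (max (max (Y1 U) (Y2 U)) 1)))
    refine ⟨max n₁ n₂, fun n hn k hk => ?_⟩
    obtain ⟨g1, g2⟩ := hn₂ n ((le_max_right _ _).trans hn)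
    have g3 := hn₁ n ((le_max_left _ _).trans hn) k
    have hkB : k ∉ Bad1 U (Y n) ∪ Bad2 U (Y n) := fun hkB => g3 hkB hk
    rw [mem_union, not_or] at hkB
    have hY1 : (1 : ℝ) ≤ Y n := by exact_mod_cast (le_max_right _ _).trans g2
    have hkle : ∀ j, |k j| ≤ ((B' * Y n ^ (f j).natDegree : ℕ) : ℤ) := by
      intro j
      have h3 : (Y n : ℝ) ≤ (Y n : ℝ) ^ (f j).natDegree := le_self_pow₀ hY1 (by have := hf j; omega)
      have h4 : |(k j : ℝ)| ≤ |(k j : ℝ) - α j * (Y n : ℝ) ^ (f j).natDegree| + |α j * (Y n : ℝ) ^ (f j).natDegree| := by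
        calc |(k j : ℝ)| = |((k j : ℝ) - α j * (Y n : ℝ) ^ (f j).natDegree) + α j * (Y n : ℝ) ^ (f j).natDegree| := by
              rw [sub_add_cancel]
          _ ≤ _ := abs_add_le _ _
      have h5 : |α j * (Y n : ℝ) ^ (f j).natDegree| = |α j| * (Y n : ℝ) ^ (f j).natDegree := by
        rw [abs_mul, abs_of_nonneg (by positivity : (0 : ℝ) ≤ (Y n : ℝ) ^ (f j).natDegree)]
      have h6 := hk j
      have h7 : (R : ℝ) ≤ B' := by exact_mod_cast hRB
      have h8 : (0 : ℝ) ≤ (Y n : ℝ) ^ (f j).natDegree := by positivity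
      have h9 : |(k j : ℝ)| ≤ (B' : ℝ) * (Y n : ℝ) ^ (f j).natDegree := by
        calc |(k j : ℝ)| ≤ (Y n : ℝ) ^ (f j).natDegree + |α j| * (Y n : ℝ) ^ (f j).natDegree := by
              rw [h5] at h4
              linarith
          _ = (|α j| + 1) * (Y n : ℝ) ^ (f j).natDegree := by ring
          _ ≤ (B' : ℝ) * (Y n : ℝ) ^ (f j).natDegree := mul_le_mul_of_nonneg_right ((hαR j).trans h7) h8
      have h10 : ((|k j| : ℤ) : ℝ) ≤ (((B' * Y n ^ (f j).natDegree : ℕ) : ℤ) : ℝ) := by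
        push_cast
        exact h9
      exact_mod_cast h10
    have hmm := (le_max_left (max (Y1 U) (Y2 U)) 1).trans g2
    exact hwas (Y n) ((le_max_right _ _).trans g2) k
      (q1 U (Y n) ((le_max_left _ _).trans hmm) k hkle hkB.1)
      (q2 U (Y n) ((le_max_right _ _).trans hmm) k hkle hkB.2)
  filter_upwards [hmain] with α hα T hT N B A
  obtain ⟨n₀, hn₀⟩ := hα T N (B + 1 + ∑ j, (⌈|α j|⌉₊ + 1)) A hT (by omega) (fun j => by
    have h1 : ⌈|α j|⌉₊ + 1 ≤ ∑ j, (⌈|α j|⌉₊ + 1) :=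
      single_le_sum (f := fun j => ⌈|α j|⌉₊ + 1) (fun _ _ => Nat.zero_le _) (mem_univ j)
    have h2 : |α j| + 1 ≤ ((⌈|α j|⌉₊ + 1 : ℕ) : ℝ) := by
      push_cast
      linarith [Nat.le_ceil |α j|]
    refine h2.trans ?_
    exact_mod_cast (by omega : ⌈|α j|⌉₊ + 1 ≤ B + 1 + ∑ j, (⌈|α j|⌉₊ + 1)))
  refine ⟨n₀, fun n hn k hk t y z tr yr zr hG hO => ?_⟩
  have h1 := wap_mono f a c E T N B _ (Y n) (by omega) k (hn₀ n hn k hk)
  exact h1 t y z tr yr zr hG.1 hG.2.1 hG.2.2.1 hG.2.2.2.1 hG.2.2.2.2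
    (par_of f a ha E T k t tr (fun p hp j => (hG.1 p hp).1.1 j) hO)

end Pool.Agent.Results.MP_83e36b_nt.ShiftsInWindows
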