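import Mathlib
import Pool.Agent.Results.MP_83e36b_nt.ShiftedWithBrauerClass
import Pool.Agent.V11109.DEC.Zero

/-!
# Weak approximation for 100% of the surfaces `y² - a z² = b t (f(t) + k)` with `k` in a sparse sequence

Let `p > 1` be a real number. There is a set `A₀` of real numbers of Hausdorff dimension smaller than
one such that the following holds for all `α > 0` outside `A₀`, with `t_j = ⌊α j ^ p⌋` (there are about
`X ^ (1 / p)` terms up to `X`), all nonzero integers `e`, all integral polynomials `f` of degree at least one,
all nonzero integers `a`, `b`, all finite sets `T` of primes and all precisions `N`: for 100% of the `j`, with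
`k = e t_j`, all families of points of the surface `W_k : y² - a z² = b t (f(t) + k) ≠ 0` over the `ℚ_p`,
`p` in `T`, of bounded height and not too close to the degenerate fibres, can be approximated by rational
points of `W_k` with the sign of `t` given by a real point. A smooth proper model of `W_k` is rationally
connected; if `deg f` is even then its Brauer group contains the class `(a, t)`.
-/

set_option autoImplicit false

namespace Pool.Agent.Results.MP_83e36b_nt.SparseShifts

open Finset Polynomial

open Pool.Agent.V11109.DEC (term Negligible)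
open Pool.Agent.Results.MP_83e36b_nt.ShiftedWithBrauerClass (OnW Given Approximated)

/-- weak approximation fails for `W_k` at the primes of `T`, with the precision `N` -/
def Fails (f : ℤ[X]) (a b : ℤ) (T : Finset Nat.Primes) (N : ℕ) (k : ℤ) : Prop :=
  ¬ ∀ (t y z : (p : Nat.Primes) → ℚ_[(p : ℕ)]) (tr yr zr : ℝ),
    Given f a b T N k t y z tr yr zr → Approximated f a b T N k t y z tr

lemma countable_primes : Countable Nat.Primes := inferInstance

/-- **Main result.** For every real `p > 1` there is a set `A₀` of real numbers of Hausdorff dimension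
smaller than one such that for all `f` of degree at least one, all nonzero `a`, `b`, all finite sets `T` of
primes and all `N` the integers `k` for which weak approximation fails for `W_k` at `T` with the precision `N`
are negligible along the sequences `e t_j`, `α > 0` outside `A₀`. -/
theorem result (p : ℝ) (hp : 1 < p) : ∃ A₀ : Set ℝ, dimH A₀ < 1 ∧
    ∀ (f : ℤ[X]) (a b : ℤ) (T : Finset Nat.Primes) (N : ℕ), 1 ≤ f.natDegree → a ≠ 0 → b ≠ 0 →
      Negligible p A₀ (Fails f a b T N) := by
  classical
  have hcp := Pool.Agent.V11109.TWI.countable_poly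
  obtain ⟨A₀, hA₀, -, h⟩ := Pool.Agent.V11109.DEC.zero p hp
    (fun v : ℤ[X] × ℤ × ℤ × Finset Nat.Primes × ℕ => Fails v.1 v.2.1 v.2.2.1 v.2.2.2.1 v.2.2.2.2)
  refine ⟨A₀, hA₀, fun f a b T N hf ha hb => h ⟨f, a, b, T, N⟩ fun ε hε => ?_⟩
  have h1 := ShiftedWithBrauerClass.result f hf a b ha hb T N
  rw [Metric.tendsto_atTop] at h1
  obtain ⟨X₀, hX₀⟩ := h1 ε hε
  refine ⟨max X₀ 1, fun X hX => ?_⟩
  have h2 := hX₀ X ((le_max_left _ _).trans hX)
  have hX1 : (0 : ℝ) < X := by exact_mod_cast (le_max_right X₀ 1).trans hX
  rw [Real.dist_eq, sub_zero, abs_of_nonneg (by positivity), div_lt_iff₀ hX1] at h2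
  rw [Pool.Agent.V11109.DEC.ncard_eq_card (Fails f a b T N) X]
  refine le_trans (le_of_eq ?_) h2.le
  congr 2
  ext k
  rw [Finset.mem_filter, Finset.mem_filter]
  rfl

end Pool.Agent.Results.MP_83e36b_nt.SparseShifts
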