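import Pool.Agent.Results.MP_83e36b_nt.QuadraticTwists
import Pool.Agent.V1110.SpB

/-!
# Weak approximation for almost all quadratic twists in a sparse sequence

Let `F = A(x) u² + B(x) u v + D(x) v²` with forms `A, B, D ∈ ℤ[x_0, ..., x_n]` of degrees `2 α`, `α + δ`, `2 δ`
and squarefree discriminant `B² - 4 A D`. The starting result `QuadraticTwists` of this problem shows that for
`100%` of the squarefree integers `a` the rational points of the rationally connected variety
`w² = a F(x; u, v)` approximate the local points in given open sets of the coordinates `(x, (u, v))`, whenever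
there are such local points.

Here `a` is taken from a sequence `± ⌊β n ^ p⌋`, where `p > 1` is any real number: a sparse sequence (about
`X^{1/p}` integers up to `X`). For all real `β > 0` outside a set of Hausdorff dimension smaller than one the
same is true for `100%` of the `n`, and for a positive proportion of the `n` one of the two numbers
`± ⌊β n ^ p⌋` is squarefree and gives a twist with local points, hence with a rational point, in the given
open sets.
-/

set_option autoImplicit false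

open Filter Topology

namespace Pool.Agent.Results.MP_83e36b_nt.SparseTwists

open Pool.Agent.Results.MP_83e36b_nt.QuadraticTwists

/-- the number of the `1 ≤ k ≤ N` such that `⌊β k ^ p⌋` has the property `Q` -/
noncomputable def along (β p : ℝ) (Q : ℕ → Prop) (N : ℕ) : ℕ :=
  Nat.card {k : ℕ // (1 ≤ k ∧ k ≤ N) ∧ Q ⌊β * (k : ℝ) ^ p⌋₊}

/-- `a` is squarefree and the twist by `a` has a point over `ℝ` and over every `ℚ_p` with coordinates in the
given open sets -/
def Local {n : ℕ} (A B D : MvPolynomial (Fin (n + 1)) ℤ) (Ω : OpenSets n) (a : ℤ) : Prop :=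
  Squarefree a ∧ HasPoint A B D a Ω.re ∧ ∀ p : Nat.Primes, HasPoint A B D a (Ω.pa p)

/-- `a` is squarefree and the twist by `a` has a rational point with coordinates in all the given open
sets -/
def Global {n : ℕ} (A B D : MvPolynomial (Fin (n + 1)) ℤ) (Ω : OpenSets n) (a : ℤ) : Prop :=
  Squarefree a ∧ HasPoint A B D a {x : (Fin (n + 1) → ℚ) × (Fin 2 → ℚ) |
      ((fun i => (x.1 i : ℝ)), (fun i => (x.2 i : ℝ))) ∈ Ω.re ∧ ∀ p : Nat.Primes,
      ((fun i => (x.1 i : ℚ_[(p : ℕ)])), (fun i => (x.2 i : ℚ_[(p : ℕ)]))) ∈ Ω.pa p}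

lemma global_local {n : ℕ} {A B D : MvPolynomial (Fin (n + 1)) ℤ} {Ω : OpenSets n} {a : ℤ}
    (h : Global A B D Ω a) : Local A B D Ω a := by
  obtain ⟨h1, x, ⟨hx1, hx2⟩, w, hw, e⟩ := h
  have key : ∀ (K : Type) [Field K] [CharZero K], ∃ w' : K, w' ≠ 0 ∧ w' ^ 2 = (a : K) *
      (MvPolynomial.aeval (fun i => (x.1 i : K)) A * (x.2 0 : K) ^ 2 +
        MvPolynomial.aeval (fun i => (x.1 i : K)) B * ((x.2 0 : K) * (x.2 1 : K)) +
        MvPolynomial.aeval (fun i => (x.1 i : K)) D * (x.2 1 : K) ^ 2) := by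
    intro K _ _
    refine ⟨(w : K), by exact_mod_cast hw, ?_⟩
    have hA : ∀ P : MvPolynomial (Fin (n + 1)) ℤ,
        MvPolynomial.aeval (fun i => (x.1 i : K)) P = ((MvPolynomial.aeval x.1 P : ℚ) : K) := by
      intro P
      have h2 := MvPolynomial.aeval_algebraMap_apply K x.1 P
      simpa [Function.comp_def] using h2
    rw [hA, hA, hA]
    have e2 := congrArg (fun q : ℚ => (q : K)) e
    push_cast at e2
    exact e2
  refine ⟨h1, ?_, fun p => ?_⟩
  · obtain ⟨w', h3, h4⟩ := key ℝ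
    exact ⟨_, hx1, w', h3, h4⟩
  · obtain ⟨w', h3, h4⟩ := key ℚ_[(p : ℕ)]
    exact ⟨_, hx2 p, w', h3, h4⟩

lemma card_true (X : ℕ) : Nat.card {t : ℕ // (1 ≤ t ∧ t ≤ X) ∧ True} = X := by
  have h : Nat.card {t : ℕ // (1 ≤ t ∧ t ≤ X) ∧ True} = (Finset.Icc 1 X).card := by
    refine Nat.subtype_card _ fun t => ?_
    rw [Finset.mem_Icc, and_true]
  rw [h, Nat.card_Icc, Nat.add_sub_cancel]

lemma sub_gl {n : ℕ} {A B D : MvPolynomial (Fin (n + 1)) ℤ} {Ω : OpenSets n} (X : ℕ) :
    globallySoluble A B D Ω X ⊆ locallySoluble A B D Ω X := fun a ha => by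
  have h1 : Global A B D Ω a := ha.2
  have h2 := global_local h1
  exact ⟨ha.1, h2⟩

lemma bad_le {n : ℕ} {A B D : MvPolynomial (Fin (n + 1)) ℤ} {Ω : OpenSets n} {s : ℤ}
    (hs : s = 1 ∨ s = -1) (X : ℕ) :
    (Nat.card {t : ℕ // (1 ≤ t ∧ t ≤ X) ∧ (Local A B D Ω (s * t) ∧ ¬ Global A B D Ω (s * t))} : ℝ) ≤
      ((locallySoluble A B D Ω X).ncard : ℝ) - ((globallySoluble A B D Ω X).ncard : ℝ) := by
  have hfin : (locallySoluble A B D Ω X).Finite := fin_of fun a ha => ha.1
  have hfin' : (globallySoluble A B D Ω X).Finite := fin_of fun a ha => ha.1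
  have h1 : Nat.card {t : ℕ // (1 ≤ t ∧ t ≤ X) ∧
      (Local A B D Ω (s * t) ∧ ¬ Global A B D Ω (s * t))} ≤
      (locallySoluble A B D Ω X \ globallySoluble A B D Ω X).ncard := by
    have e : Nat.card {t : ℕ // (1 ≤ t ∧ t ≤ X) ∧
        (Local A B D Ω (s * t) ∧ ¬ Global A B D Ω (s * t))} =
        ({t : ℕ | (1 ≤ t ∧ t ≤ X) ∧
          (Local A B D Ω (s * t) ∧ ¬ Global A B D Ω (s * t))} : Set ℕ).ncard :=
      Nat.card_coe_set_eq _
    rw [e]
    refine Set.ncard_le_ncard_of_injOn (fun t : ℕ => s * (t : ℤ)) (fun t ht => ?_)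
      (fun t _ u _ h => ?_) (hfin.subset Set.sdiff_subset)
    · obtain ⟨⟨h1, h2⟩, h3, h4⟩ := ht
      have h5 : |s * (t : ℤ)| ≤ (X : ℤ) := by
        rw [abs_mul]
        rcases hs with rfl | rfl <;> simp <;> omega
      exact ⟨⟨h5, h3⟩, fun h6 => h4 h6.2⟩
    · have h1 : s * (t : ℤ) = s * (u : ℤ) := h
      rcases hs with rfl | rfl <;> omega
  have h2 := Set.ncard_sdiff (sub_gl (A := A) (B := B) (D := D) (Ω := Ω) X) hfin'
  have h3 := Set.ncard_le_ncard (sub_gl (A := A) (B := B) (D := D) (Ω := Ω) X) hfin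
  have h4 : ((locallySoluble A B D Ω X \ globallySoluble A B D Ω X).ncard : ℝ) =
      ((locallySoluble A B D Ω X).ncard : ℝ) - ((globallySoluble A B D Ω X).ncard : ℝ) := by
    rw [h2, Nat.cast_sub h3]
  rw [← h4]
  exact_mod_cast h1

lemma loc_le {n : ℕ} {A B D : MvPolynomial (Fin (n + 1)) ℤ} {Ω : OpenSets n} (X : ℕ) :
    ((locallySoluble A B D Ω X).ncard : ℝ) ≤ 2 * X + 1 := by
  have h1 : locallySoluble A B D Ω X ⊆ (Finset.Icc (-(X : ℤ)) X : Set ℤ) := fun a ha => by
    rw [Finset.coe_Icc]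
    exact Set.mem_Icc.2 (abs_le.1 ha.1)
  have h2 := Set.ncard_le_ncard h1 (Finset.finite_toSet _)
  rw [Set.ncard_coe_finset, Int.card_Icc] at h2
  have h3 : ((X : ℤ) + 1 - -(X : ℤ)).toNat = 2 * X + 1 := by omega
  rw [h3] at h2
  exact_mod_cast h2

lemma glob_le {n : ℕ} {A B D : MvPolynomial (Fin (n + 1)) ℤ} {Ω : OpenSets n} (X : ℕ) :
    ((globallySoluble A B D Ω X).ncard : ℝ) ≤ 2 * (Nat.card {t : ℕ // (1 ≤ t ∧ t ≤ X) ∧
      (Global A B D Ω t ∨ Global A B D Ω (-t))} : ℝ) := by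
  have e : Nat.card {t : ℕ // (1 ≤ t ∧ t ≤ X) ∧ (Global A B D Ω t ∨ Global A B D Ω (-t))} =
      ({t : ℕ | (1 ≤ t ∧ t ≤ X) ∧ (Global A B D Ω t ∨ Global A B D Ω (-t))} : Set ℕ).ncard :=
    Nat.card_coe_set_eq _
  rw [e]
  set G := globallySoluble A B D Ω X with hG
  set Q : Set ℕ := {t : ℕ | (1 ≤ t ∧ t ≤ X) ∧ (Global A B D Ω t ∨ Global A B D Ω (-t))} with hQ
  have hQf : Q.Finite := (Set.finite_Icc 1 X).subset fun t ht => ht.1
  have hne : ∀ a ∈ G, a ≠ 0 := fun a ha h0 => by
    have h1 : Squarefree a := ha.2.1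
    exact h1.ne_zero h0
  have hmap : ∀ a ∈ G, a.natAbs ∈ Q := by
    intro a ha
    have h1 : Global A B D Ω a := ha.2
    have h2 : |a| ≤ (X : ℤ) := ha.1
    rw [Int.abs_eq_natAbs] at h2
    have h3 := hne a ha
    refine ⟨⟨by omega, by omega⟩, ?_⟩
    rcases Int.natAbs_eq a with h4 | h4
    · left
      rw [← h4]
      exact h1
    · right
      rw [← h4]
      exact h1
  have h1 : (G ∩ {a | 0 < a}).ncard ≤ Q.ncard :=
    Set.ncard_le_ncard_of_injOn Int.natAbs (fun a ha => hmap a ha.1) (fun a ha b hb h => by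
      have h2 : (0 : ℤ) < a := ha.2
      have h3 : (0 : ℤ) < b := hb.2
      omega) hQf
  have h2 : (G ∩ {a | a < 0}).ncard ≤ Q.ncard :=
    Set.ncard_le_ncard_of_injOn Int.natAbs (fun a ha => hmap a ha.1) (fun a ha b hb h => by
      have h2 : a < (0 : ℤ) := ha.2
      have h3 : b < (0 : ℤ) := hb.2
      omega) hQf
  have h3 : G ⊆ (G ∩ {a | 0 < a}) ∪ (G ∩ {a | a < 0}) := fun a ha => by
    rcases lt_or_gt_of_ne (hne a ha) with h | h
    · exact Or.inr ⟨ha, h⟩
    · exact Or.inl ⟨ha, h⟩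
  have hGf : G.Finite := fin_of fun a ha => ha.1
  have h4 := Set.ncard_le_ncard h3 ((hGf.inter_of_left _).union (hGf.inter_of_left _))
  have h5 := h4.trans (Set.ncard_union_le _ _)
  have h6 : G.ncard ≤ 2 * Q.ncard := by omega
  exact_mod_cast h6

/-- **Main theorem.** Let `p > 1` be a real number and `A, B, D, Ω` as in `QuadraticTwists`. There is a set
`E` of real numbers of Hausdorff dimension smaller than one such that for all real `β > 0` not in `E`:
(1) for both signs `s`, the proportion of the `k ≤ N` such that for `a = s ⌊β k ^ p⌋` the twist has local but no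
rational points in the given open sets (`Local` but not `Global`) tends to zero;
(2) for at least `b N` of the `k ≤ N` (`b > 0`, `N` large) the twist by `⌊β k ^ p⌋` or the twist by
`- ⌊β k ^ p⌋` has a rational point in the given open sets (`Global`). -/
theorem result (p : ℝ) (hp : 1 < p) (n α δ : ℕ) (A B D : MvPolynomial (Fin (n + 1)) ℤ)
    (hA : A.IsHomogeneous (2 * α)) (hB : B.IsHomogeneous (α + δ)) (hD : D.IsHomogeneous (2 * δ))
    (hαδ : 1 ≤ α + δ)
    (hsq : Squarefree (MvPolynomial.map (Int.castRingHom ℚ) (B ^ 2 - 4 * A * D)))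
    (Ω : OpenSets n) :
    ∃ E : Set ℝ, dimH E < 1 ∧ ∀ β : ℝ, 0 < β → β ∉ E →
      (∀ s : ℤ, (s = 1 ∨ s = -1) →
        Tendsto (fun N : ℕ => (along β p (fun t => Local A B D Ω (s * t) ∧
          ¬ Global A B D Ω (s * t)) N : ℝ) / N) atTop (𝓝 0)) ∧
      ∃ b : ℝ, 0 < b ∧ ∃ N₀ : ℕ, ∀ N : ℕ, N₀ ≤ N →
        b * N ≤ (along β p (fun t => Global A B D Ω t ∨ Global A B D Ω (-t)) N : ℝ) := by
  classical
  obtain ⟨⟨c, hc, hloc⟩, hrat⟩ := QuadraticTwists.result n α δ A B D hA hB hD hαδ hsq Ω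
  obtain ⟨E1, hE1, k1⟩ := Pool.Agent.V1110.SpA.ratio_nat p hp (ι := ℤ)
    (fun s t => Local A B D Ω (s * t) ∧ ¬ Global A B D Ω (s * t)) (fun _ _ => True)
  obtain ⟨E2, hE2, k2⟩ := Pool.Agent.V1110.SpA.ratio_nat p hp (ι := Unit)
    (fun _ t => Global A B D Ω t ∨ Global A B D Ω (-t))
    (fun _ t => Global A B D Ω t ∨ Global A B D Ω (-t))
  obtain ⟨H₀, hH₀⟩ := eventually_atTop.1 hloc
  refine ⟨E1 ∪ E2, by rw [dimH_union]; exact max_lt hE1 hE2, fun β hβ hβE =>
    ⟨fun s hs => ?_, ?_⟩⟩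
  · have hβ1 : β ∉ E1 := fun h => hβE (Or.inl h)
    have h1 := (k1 β hβ hβ1 s 0 (1 / 2) 0 (by norm_num) le_rfl ⟨0, fun X _ => by
      rw [card_true, neg_zero, Real.rpow_zero, mul_one]
      have : (0 : ℝ) ≤ X := Nat.cast_nonneg _
      linarith⟩ (by
      have hlim : Tendsto (fun X : ℕ => 3 * (1 - ((globallySoluble A B D Ω X).ncard : ℝ) /
          ((locallySoluble A B D Ω X).ncard : ℝ))) atTop (𝓝 0) := by
        have h2 := (hrat.const_sub 1).const_mul 3
        simpa using h2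
      refine squeeze_zero' (Eventually.of_forall fun X => by positivity) ?_ hlim
      filter_upwards [eventually_ge_atTop (max H₀ 1)] with X hX
      have hX1 : 1 ≤ X := (le_max_right _ _).trans hX
      have hXr : (1 : ℝ) ≤ X := by exact_mod_cast hX1
      have hL := hH₀ X ((le_max_left _ _).trans hX)
      have hLpos : (0 : ℝ) < ((locallySoluble A B D Ω X).ncard : ℝ) :=
        lt_of_lt_of_le (mul_pos hc (by linarith)) hL
      rw [card_true]
      have h3 := bad_le (A := A) (B := B) (D := D) (Ω := Ω) hs X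
      have h4 := loc_le (A := A) (B := B) (D := D) (Ω := Ω) X
      rw [div_le_iff₀ (by linarith)]
      refine h3.trans ?_
      set L : ℝ := ((locallySoluble A B D Ω X).ncard : ℝ)
      set G : ℝ := ((globallySoluble A B D Ω X).ncard : ℝ)
      have h5 : (0 : ℝ) ≤ 1 - G / L := by
        rw [sub_nonneg, div_le_one hLpos]
        have h6 := Set.ncard_le_ncard (sub_gl (A := A) (B := B) (D := D) (Ω := Ω) X)
          (fin_of fun a ha => ha.1)
        show ((globallySoluble A B D Ω X).ncard : ℝ) ≤ ((locallySoluble A B D Ω X).ncard : ℝ)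
        exact_mod_cast h6
      have h6 : L - G = (1 - G / L) * L := by
        field_simp
      rw [h6]
      have h7 : L ≤ 3 * X := by linarith
      nlinarith [mul_le_mul_of_nonneg_left h7 h5])).1
    refine h1.congr fun N => ?_
    have e2 : Pool.Agent.V1110.SpA.along β p (fun _ : ℕ => True) N = N := card_true N
    rw [e2]
    rfl
  · have hβ2 : β ∉ E2 := fun h => hβE (Or.inr h)
    have hhalf : ∀ᶠ X : ℕ in atTop, (1 / 2 : ℝ) < ((globallySoluble A B D Ω X).ncard : ℝ) /
        ((locallySoluble A B D Ω X).ncard : ℝ) := hrat.eventually_const_lt (by norm_num)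
    obtain ⟨H₁, hH₁⟩ := eventually_atTop.1 hhalf
    have hlow : ∀ X : ℕ, max (max H₀ H₁) 1 ≤ X → c / 4 * X ≤ (Nat.card {t : ℕ // (1 ≤ t ∧ t ≤ X) ∧
        (Global A B D Ω t ∨ Global A B D Ω (-t))} : ℝ) := by
      intro X hX
      have hX1 : 1 ≤ X := (le_max_right _ _).trans hX
      have hXr : (1 : ℝ) ≤ X := by exact_mod_cast hX1
      have hL := hH₀ X ((le_max_left _ _).trans ((le_max_left _ _).trans hX))
      have hR := hH₁ X ((le_max_right _ _).trans ((le_max_left _ _).trans hX))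
      have hLpos : (0 : ℝ) < ((locallySoluble A B D Ω X).ncard : ℝ) :=
        lt_of_lt_of_le (mul_pos hc (by linarith)) hL
      rw [lt_div_iff₀ hLpos] at hR
      have h3 := glob_le (A := A) (B := B) (D := D) (Ω := Ω) X
      linarith
    have h1 := (k2 β hβ hβ2 () 1 (c / 4) 0 (by linarith) le_rfl
      ⟨max (max H₀ H₁) 1, fun X hX => by
        rw [neg_zero, Real.rpow_zero, mul_one]
        exact hlow X hX⟩ (by
      refine tendsto_const_nhds.congr' ?_
      filter_upwards [eventually_ge_atTop (max (max H₀ H₁) 1)] with X hX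
      have hX1 : 1 ≤ X := (le_max_right _ _).trans hX
      have hXr : (1 : ℝ) ≤ X := by exact_mod_cast hX1
      have h2 := hlow X hX
      have h3 : (0 : ℝ) < (Nat.card {t : ℕ // (1 ≤ t ∧ t ≤ X) ∧
        (Global A B D Ω t ∨ Global A B D Ω (-t))} : ℝ) :=
        lt_of_lt_of_le (by nlinarith) h2
      exact (div_self h3.ne').symm)).2
    obtain ⟨b, hb, N₀, hN₀⟩ := h1
    refine ⟨b, hb, N₀, fun N hN => ?_⟩
    have h2 := hN₀ N hN
    rw [neg_zero, Real.rpow_zero, mul_one] at h2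
    exact h2

end Pool.Agent.Results.MP_83e36b_nt.SparseTwists
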